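import Pool.Agent.L5helper19.NT.Conv

/-!
# The noncommutative Tate conjecture for the tensor products of an arbitrary dg category with
# almost all members of the families of covers with large monodromy

Let `q` be a power of the prime `p` and `C_s`, `s ∈ S n`, the members over the field with `q ^ n`
elements, `n = 1, 2, ...`, of a family of varieties over the field with `q` elements, for instance the
curves `y ^ m = f (x)`, `deg f = d`, or other abelian covers of curves. Their (transcendental)
cohomology has parts `V_j`, `j ∈ J`, of unitary type (with the duals, which belong to the complex
conjugate characters) and parts `V'_i`, `i ∈ J'`, of symplectic type. The characteristic polynomials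
of the Frobenius are the polynomials `P n s j` with coefficients in a number field `K` (the field of
the values of the characters) and `recip (q ^ n) (h n s i)`, with integral coefficients. The
monodromy is large if for all large primes `r` the image of the geometric fundamental group in the
product of the groups `GL (V_j mod r)`, `GSp (V'_i mod r)` (for a place of `K` of degree one) contains
the product of the groups `SL`, `Sp`; by the theorems of Deligne and Katz the Frobenius elements are
then equidistributed (`LargeFamily`, `Equidistributed`).

A smooth proper dg category whose noncommutative motive is a direct summand of the one of a variety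
`X` is given by an idempotent `f` in `K_0(X × X)_ℚ`, a self-correspondence of arbitrary degree
(`IsMotive`). The Tate conjecture for `(X, f)` (`NCTate`) says that the Tate classes in the image
of `f` are combinations of the classes of `K_0 (X, f)`; by the theorem of Thomason this is
equivalent to `G_n = 0` for all `n` in the question.

**Theorem.** Let `B` be any finite set of nonzero algebraic integers, for instance the
set of the eigenvalues of the Frobenius of an **arbitrary** variety `Z_0` over the field with `q`
elements. Let `m ≥ 0` and `ε > 0`. If `n` is large, then for all `m`-tuples of members `s i ∈ S n`, with
at most `ε |S n| ^ m` exceptions, the following holds (`TensorTate`), for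

* all varieties `X` whose eigenvalues of the Frobenius are in the group generated by `p` and the
  eigenvalues of the Frobenius of the members `s i`, up to powers (for instance all products of powers
  of the `C_(s i)`), and **all** summands `ℬ = (X, f)` of their noncommutative motives;
* all varieties `Z` whose eigenvalues of the Frobenius are in the group generated by `p` and `B`, up
  to powers (for instance the powers of `Z_0`), and **all dg categories** `𝒜 = (Z, e)` whose
  noncommutative motives are summands of theirs.

(1) Let `Y` be a variety such that the part of the motive of `X` which belongs to the determinants of
the `V_j` is a summand of a sum of twists of the motive of `Y` (`ComesFrom`; for the curves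
`y ^ m = f (x)` the determinants are, up to twists, motives of Fermat hypersurfaces). Then the
conjecture for `𝒜 ⊗ perf(Y)` implies the conjecture for `𝒜 ⊗ ℬ`; and the conjectures for
`𝒜 ⊗ perf(Y)` and `𝒜 ⊗ perf(X)` are equivalent if `Y` is itself a part of `X`.

(2) If the determinants are supersingular (for instance if `J` is empty, or if `-1` is a power of `p`
modulo `m`), and if the strong form of the Tate conjecture is true for `X`, then the Tate classes of
`𝒜 ⊗ ℬ` are the sums of products of classes of elements of `K_0(ℬ)` and Tate classes of `𝒜`,
and the conjecture for `𝒜 ⊗ ℬ` is true if and only if it is true for `𝒜`, or `K_0(ℬ)` is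
homologically trivial.

Nothing is assumed on `𝒜`. The starting files have such theorems for almost all abelian varieties
(symplectic type, all Weil polynomials of given degree, `ℬ = perf(X)`, eigenvalues of `Z` of
small rank); `TensorProducts` is for families which are assumed to be independent. Here almost all
members of geometric families are treated, with parts of unitary type (where there are Tate classes
which do not come from divisors), without a condition on the rank.

The proof: by a sieve, for almost all members the Frobenius conjugacy classes of the Galois groups of
the polynomials modulo suitable primes (which split completely for `B`) have patterns which imply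
that in the multiplicative relations between the eigenvalues and `B` the exponents are constant on
each `V_j`, and equal at `α`, `q ^ n / α` in the `V'_i` (`Pool.Agent.L5helper29.AA`, a joint work of
helper29, helper6, helper7, helper30 and helper19, used for the usual Tate conjecture in
`MP_0d42ed_ag.AlmostAllCovers`). So the operator from the cohomology of `X` to the one of `Z` given
by a Tate class on `X × Z` factors through the part of the cohomology of `X` belonging to the
determinants, hence through the cohomology of `Y`.
-/

set_option autoImplicit false
set_option linter.all false

open CategoryTheory AlgebraicGeometry Polynomial NumberField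

universe u v

namespace Pool.Agent.Results.MP_de89cc_ag.AlmostAllCovers

open Pool.Agent.H914 Pool.Agent.H914.VarClass Pool.Agent.H914.VarClass.Obj
  Pool.Agent.H914.WeilCohomology Pool.Agent.W534
  Pool.Agent.L5helper19.NT.Stm

/-- **The noncommutative Tate conjecture for the tensor products of arbitrary dg categories with
almost all members of the families with large monodromy.** -/
theorem result {k : Type u} [Field k] {𝒱 : VarClass k} {ops : CycleOps 𝒱}
    (W : WeilCohomology.{u, v} ops) [IsAlgClosed W.K] (σ : W.K →+* ℂ) (p : ℕ) (hp : 1 < p)
    (Φ : FrobSystem W p) {K : Type} [Field K] [NumberField K] (τ : K →+* ℂ) (q a : ℕ)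
    (ha : 0 < a) (hq : q = p ^ a) {J J' : Type} [Fintype J] [Fintype J'] (N : J → ℕ) (g : J' → ℕ)
    (S : ℕ → Type) [∀ n, Fintype (S n)] (P : ∀ n, S n → J → (𝓞 K)[X])
    (h : ∀ n, S n → J' → ℤ[X]) (δ : ℕ → J → 𝓞 K) (hF : LargeFamily τ q N g S P h δ)
    (B : Finset ℂ) (hB : ∀ b ∈ B, b ≠ 0 ∧ IsIntegral ℤ b) (m : ℕ) (ε : ℝ) (hε : 0 < ε) :
    ∃ n₀ : ℕ, ∀ n ≥ n₀, ({s : Fin m → S n | ¬ TensorTate Φ σ
      (rootSet τ (fun x : Fin m × J => P n (s x.1) x.2)
        (fun x : Fin m × J' => h n (s x.1) x.2) (q ^ n))
      (constSet τ (fun x : Fin m × J => P n (s x.1) x.2)) B}.ncard : ℝ) ≤
      ε * (Nat.card (S n) : ℝ) ^ m :=
  Pool.Agent.L5helper19.NT.almost_tuples hp σ ha hq hF B hB m ε hε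

end Pool.Agent.Results.MP_de89cc_ag.AlmostAllCovers
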