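import Pool.Agent.L5helper29.AS.Final

/-!
# The (noncommutative) Tate conjecture for all products of powers of Artin-Schreier curves

For a smooth proper scheme `X` over a finite field Tate's conjecture for `X` holds if and only if the
noncommutative Tate conjecture holds for the dg category `perf_dg (X)`. This file determines all Tate
classes on the products `X` of powers of the following curves.

Let `F` be a finite field with `q` elements, of characteristic `p`, and `f` a polynomial over `F` of
degree `d = n + 1` prime to `p`. The first cohomology of the smooth projective model of the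
Artin-Schreier curve `C_f : y ^ p - y = f (x)` is the sum of the spaces
`V_ψ = H¹_c (𝔸¹, ℒ_ψ (f))` of dimension `n`, for the nontrivial characters `ψ` of the form
`x ↦ χ (Tr x)`, `χ` a character of the prime field (for `y ^ q - y = f (x)`: for all nontrivial
additive characters `ψ` of `F`). The multiset of the eigenvalues of the Frobenius on `V_ψ` is
characterized by the exponential sums of `f` over all finite extensions of `F` (`IsFrob`).

1. The multiset exists and is unique, it has `n` elements, they have absolute value `√q`, and their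
   product, the eigenvalue of the Frobenius on the line `det V_ψ`, is `q ^ (n / 2) ψ (c)` for even
   `n` and `- q ^ ((n - 1) / 2) ψ (c) ∑ s, ψ ((d a / 2) s ^ 2)` for odd `n`, where `c` is the
   **sum of the critical values** of `f` and `a` its leading coefficient. (So, over a finite
   extension of `F`, `det V_ψ` consists of Tate classes on `C_f ^ n`, for even `n`, and
   `det V_ψ ⊗ det V_ψ'` does, for odd `n`. For `n > 2` these are not products of divisor classes in
   the situation of 3.)

2. For a monic polynomial `h` of degree `n` over an extension `E` of `F` let `valSum f h` be the sum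
   of the values of `f` at the roots of `h`. Along the polynomials `h + g`, `deg g < m = ⌊n / 2⌋`,
   it is `valSum f h` plus a linear form in `g`, and this linear form vanishes exactly if `h` agrees
   with `f' / (d a)` up to terms of degree less than `n - m`. For such `h` we have `valSum f h = c`
   if `n` is even, and `valSum f h = c + (d a / 2) s ^ 2`, `s` the coefficient of `X ^ m` in
   `h - f' / (d a)`, if `n = 2 m + 1`. This gives the cycles whose classes span the lines of 1: for
   even `n`, the subvariety of `C_f ^ n` of the points `((x_i, y_i))` such that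
   `∏ (X - x_i) - f' / (d a)` has degree less than `n / 2` and `∑ y_i = y_0`, where
   `y_0 ^ p - y_0 = c`; for odd `n`, the subvariety of `C_f ^ n × Q`, `Q` the supersingular curve
   `z ^ p - z = (d a / 2) s ^ 2`, of the points such that `∏ (X - x_i) - f' / (d a)` has degree at
   most `m`, with coefficient `s` of `X ^ m`, and `∑ y_i = z + y_0`. (By the vanishing of the sums
   of `ψ` over the other affine subspaces `h + g`, the restriction from the symmetric power of the
   affine line to this subvariety is an isomorphism on the cohomology with compact supports and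
   coefficients in the sheaf of `ψ (valSum f h)`, which is `det V_ψ`.)

3. Let `(f j, ψ j)`, `j ∈ J`, be finitely many such pairs, `deg (f j) ≥ 4`, with eigenvalues `A j`,
   such that for each `j` the automorphisms of `ℂ` over `ℚ (μ_p)` permute the elements of `A j`
   doubly transitively, or transitively if `n j` is prime (and `V_ψ` is not supersingular), and some
   automorphism over `ℚ (μ_p)` fixes all elements of all `A i`, `i ≠ j`, but not all elements
   of `A j`. (These are conditions on the Galois groups of the `L`-polynomials over `ℚ (μ_p)`.) Let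
   `V` be a vector space with an endomorphism `Φ`, spanned by eigenvectors with eigenvalues `α`,
   `q / α` for `α` in the sets `A j`; for example the first cohomology of a product of powers of the
   Jacobians of the curves. (For one curve `C_f`, `p > 2`, take for `J` the set of the pairs
   `{ψ, ψ̄}`. The cohomology of the `r`-th power of the Jacobian of `C_f` is the exterior algebra of
   the first one, and that of `C_f ^ r` is a quotient of it.) Then **all Tate classes in the exterior
   algebra of `V`** (over all finite extensions of `F`) **are polynomials in the Tate classes of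
   degree two over `F`, the determinant monomials for even `n j`, and the products of two
   determinant monomials for odd `n j`** (and these are Tate classes, over a finite extension). A
   determinant monomial is a product `v_1 ∧ ⋯ ∧ v_n` of eigenvectors with the eigenvalues `A j`, or
   with the eigenvalues `q / α`, `α ∈ A j`. The classes of degree two are algebraic by Tate's
   theorem; the determinant monomials are obtained from the line `det V_ψ` by pull-backs and
   polynomials in the Frobenius endomorphisms of the factors, so they are algebraic by 2. So the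
   Tate conjecture holds for all products `X` of powers of the curves `C_f`, although their Tate
   classes are not generated by the classes of divisors, and the groups `G_n (perf_dg (X))` vanish.
-/

set_option autoImplicit false
set_option linter.all false

namespace Pool.Agent.Results.MP_de89cc_ag.ArtinSchreierPowers

open Polynomial Finset

/-- `A` is the multiset of the eigenvalues of the Frobenius of `F` on `H¹_c (𝔸¹, ℒ_ψ (f))`: they are
not zero, and for every finite extension `E` of `F` the sum of `ψ (Tr (f x))`, `x ∈ E`, is minus the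
sum of the `[E : F]`-th powers of the elements of `A`. -/
def IsFrob {F : Type} [Field F] [Fintype F] (ψ : AddChar F ℂ) (f : F[X]) (A : Multiset ℂ) : Prop :=
  (0 : ℂ) ∉ A ∧ ∀ (E : Type) [Field E] [Fintype E] [Algebra F E],
    ∑ x : E, ψ (Algebra.trace F E (aeval x f)) =
      - (A.map (fun α => α ^ Module.finrank F E)).sum

/-- the sum of the values of `f` at the roots of the monic polynomial `h` (see the first assertion of
the theorem), expressed by the coefficients -/
noncomputable def valSum {E : Type} [Field E] (f h : E[X]) : E := Pool.Agent.Y951.WP.T f h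

/-- the monic multiple `f' / (d a)` of the derivative of `f` -/
noncomputable def critPoly {E : Type} [Field E] (f : E[X]) : E[X] :=
  C ((f.natDegree : E) * f.leadingCoeff)⁻¹ * derivative f

/-- the sum of the critical values of `f` -/
noncomputable def critSum {E : Type} [Field E] (f : E[X]) : E := valSum f (critPoly f)

/-- `σ` is the identity on the `p`-th roots of unity -/
def FixMu (p : ℕ) (σ : ℂ ≃+* ℂ) : Prop := ∀ z : ℂ, z ^ p = 1 → σ z = z

/-- The elements of `A` are distinct, and the automorphisms of `ℂ` over the field of the `p`-th roots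
of unity act doubly transitively on them, or transitively if their number is a prime number and
`x ^ 2 / q` is not a root of unity for some `x ∈ A`. -/
def LargeGalois (p q : ℕ) (A : Multiset ℂ) : Prop :=
  A.Nodup ∧
  ((∀ x ∈ A, ∀ y ∈ A, ∀ x' ∈ A, ∀ y' ∈ A, x ≠ y → x' ≠ y' →
      ∃ σ : ℂ ≃+* ℂ, FixMu p σ ∧ σ x = x' ∧ σ y = y') ∨
    (A.card.Prime ∧ (∀ x ∈ A, ∀ y ∈ A, ∃ σ : ℂ ≃+* ℂ, FixMu p σ ∧ σ x = y) ∧
      ∃ x ∈ A, ∀ N : ℕ, 0 < N → x ^ (2 * N) ≠ (q : ℂ) ^ N))

/-- the Tate classes of codimension `m` over the extension of degree `s` -/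
def IsTate {V : Type*} [AddCommGroup V] [Module ℂ V] (Φ : V →ₗ[ℂ] V) (q m s : ℕ)
    (x : ExteriorAlgebra ℂ V) : Prop :=
  x ∈ ⋀[ℂ]^(2 * m) V ∧ ExteriorAlgebra.map (Φ ^ s) x = ((q : ℂ) ^ m) ^ s • x

/-- the products of eigenvectors of `Φ`, one for each element of the multiset `S` -/
def Monomials {V : Type*} [AddCommGroup V] [Module ℂ V] (Φ : V →ₗ[ℂ] V) (S : Multiset ℂ) :
    Set (ExteriorAlgebra ℂ V) :=
  {w | ∃ L : List (V × ℂ), ((L.map Prod.snd : List ℂ) : Multiset ℂ) = S ∧
    (∀ e ∈ L, Φ e.1 = e.2 • e.1) ∧ w = (L.map (fun e => ExteriorAlgebra.ι ℂ e.1)).prod}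

/-- the determinant monomials: the eigenvalues are the elements `α` of `A`, or the numbers `q / α` -/
def DetMonomials {V : Type*} [AddCommGroup V] [Module ℂ V] (Φ : V →ₗ[ℂ] V) (q : ℕ)
    (A : Multiset ℂ) : Set (ExteriorAlgebra ℂ V) :=
  Monomials Φ A ∪ Monomials Φ (A.map (fun α => (q : ℂ) / α))

/-- the generators: Tate classes of degree two over `F`, determinant monomials of even degree,
products of two determinant monomials of odd degree -/
def Generators {J : Type} {V : Type*} [AddCommGroup V] [Module ℂ V] (Φ : V →ₗ[ℂ] V) (q : ℕ)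
    (A : J → Multiset ℂ) : Set (ExteriorAlgebra ℂ V) :=
  {y | IsTate Φ q 1 1 y} ∪ {w | ∃ j, Even (A j).card ∧ w ∈ DetMonomials Φ q (A j)} ∪
    {w | ∃ i j, Odd (A i).card ∧ Odd (A j).card ∧
      ∃ u ∈ DetMonomials Φ q (A i), ∃ v ∈ DetMonomials Φ q (A j), w = u * v}

lemma gens_le {J : Type} {V : Type*} [AddCommGroup V] [Module ℂ V] (Φ : V →ₗ[ℂ] V) (q : ℕ)
    (A : J → Multiset ℂ) (hA : ∀ j, (A j).Nodup) :
    Pool.Agent.L5helper29.AS.gens Φ (q : ℂ) (fun j => (A j).toFinset) ⊆ Generators Φ q A := by
  have hval : ∀ j, (A j).toFinset.val = A j := fun j => by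
    rw [Multiset.toFinset_val, Multiset.dedup_eq_self.2 (hA j)]
  have hcard : ∀ j, (A j).toFinset.card = (A j).card := fun j =>
    Multiset.toFinset_card_of_nodup (hA j)
  have hblk : ∀ j, Pool.Agent.L5helper29.AS.blk Φ (q : ℂ) (fun j => (A j).toFinset) j =
      DetMonomials Φ q (A j) := by
    intro j
    unfold Pool.Agent.L5helper29.AS.blk DetMonomials
    rw [hval]
    rfl
  rintro w ((hw | ⟨j, h1, h2⟩) | ⟨i, j, h1, h2, u, hu, v, hv, h3⟩)
  · left; left
    refine ⟨hw.1, ?_⟩
    have := hw.2
    simpa using this
  · left; right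
    rw [hblk] at h2
    rw [hcard] at h1
    exact ⟨j, h1, h2⟩
  · right
    rw [hblk] at hu hv
    rw [hcard] at h1 h2
    exact ⟨i, j, h1, h2, u, hu, v, hv, h3⟩

/-- `valSum f h` is the sum of the values of `f` at the roots of `h`. -/
def ValSumSpec (E : Type) [Field E] : Prop :=
  ∀ f h : E[X], h.Monic → ∀ (K : Type) [Field K] [IsAlgClosed K] [Algebra E K],
    algebraMap E K (valSum f h) = ((h.aroots K).map (fun z => aeval z f)).sum

/-- Assertion 1: the eigenvalues of the Frobenius exist and are unique, their number, their absolute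
values and their product. -/
def EigenvalueSpec (F : Type) [Field F] [Fintype F] : Prop :=
  ∀ ψ : AddChar F ℂ, ψ ≠ 1 → ∀ (f : F[X]) (n : ℕ), 1 ≤ n → f.natDegree = n + 1 →
    ((n + 1 : ℕ) : F) ≠ 0 →
    ∃ A : Multiset ℂ, (∀ B, IsFrob ψ f B ↔ B = A) ∧ A.card = n ∧
      (∀ α ∈ A, ‖α‖ = Real.sqrt (Fintype.card F)) ∧
      (∀ m, n = 2 * m → A.prod = (Fintype.card F : ℂ) ^ m * ψ (critSum f)) ∧
      (∀ m, n = 2 * m + 1 → A.prod = - ((Fintype.card F : ℂ) ^ m * ψ (critSum f) *
        ∑ s : F, ψ ((f.natDegree : F) * f.leadingCoeff / 2 * s ^ 2)))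

/-- Assertion 2: the function `valSum f` on the monic polynomials of degree `n = deg f - 1`. -/
def CycleSpec (E : Type) [Field E] : Prop :=
  ∀ (f : E[X]) (n m : ℕ), 1 ≤ n → m = n / 2 → f.natDegree = n + 1 → ((n + 1 : ℕ) : E) ≠ 0 →
    (∀ h : E[X], h.Monic → h.natDegree = n → ∃ l : E[X] →ₗ[E] E,
      (∀ g : E[X], g.degree < (m : WithBot ℕ) → valSum f (h + g) = valSum f h + l g) ∧
      ((∀ g : E[X], g.degree < (m : WithBot ℕ) → l g = 0) ↔
        (h - critPoly f).degree < ((n - m : ℕ) : WithBot ℕ))) ∧
    (n = 2 * m → ∀ h : E[X], (h - critPoly f).degree < (m : WithBot ℕ) →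
      valSum f h = critSum f) ∧
    (n = 2 * m + 1 → ∀ (s : E) (g : E[X]), g.degree < (m : WithBot ℕ) →
      valSum f (critPoly f + C s * X ^ m + g) =
        critSum f + (f.natDegree : E) * f.leadingCoeff / 2 * s ^ 2)

/-- The pairs `(f j, ψ j)` have large and independent Galois groups. -/
def LargeIndependent (F : Type) [Field F] [Fintype F] {J : Type} (A : J → Multiset ℂ) : Prop :=
  (∀ j, LargeGalois (ringChar F) (Fintype.card F) (A j)) ∧
  ∀ j, ∃ σ : ℂ ≃+* ℂ, FixMu (ringChar F) σ ∧ (∀ i, i ≠ j → ∀ x ∈ A i, σ x = x) ∧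
    ∃ x ∈ A j, σ x ≠ x

/-- The space is spanned by eigenvectors with eigenvalues `α`, `q / α`, for `α` in the sets `A j`. -/
def SpannedBy {V : Type} [AddCommGroup V] [Module ℂ V] (Φ : V →ₗ[ℂ] V) (q : ℕ) {J : Type}
    (A : J → Multiset ℂ) : Prop :=
  Submodule.span ℂ {v : V | ∃ j, ∃ α ∈ A j, Φ v = α • v ∨ Φ v = ((q : ℂ) / α) • v} = ⊤

/-- Assertion 3: the Tate classes. -/
def TateSpec (F : Type) [Field F] [Fintype F] : Prop :=
  ∀ (J : Type) [Fintype J] (f : J → F[X]) (ψ : J → AddChar F ℂ) (A : J → Multiset ℂ),
    (∀ j, 4 ≤ (f j).natDegree ∧ ((f j).natDegree : F) ≠ 0 ∧ ψ j ≠ 1 ∧ IsFrob (ψ j) (f j) (A j)) →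
    LargeIndependent F A →
    ∀ (V : Type) [AddCommGroup V] [Module ℂ V] (Φ : V →ₗ[ℂ] V),
    SpannedBy Φ (Fintype.card F) A →
    (∀ (m s : ℕ) (x : ExteriorAlgebra ℂ V), 1 ≤ s → IsTate Φ (Fintype.card F) m s x →
      x ∈ Algebra.adjoin ℂ (Generators Φ (Fintype.card F) A)) ∧
    (∀ w ∈ Generators Φ (Fintype.card F) A, ∃ m s : ℕ, 1 ≤ s ∧ IsTate Φ (Fintype.card F) m s w)

theorem result :
    (∀ (E : Type) [Field E], ValSumSpec E ∧ CycleSpec E) ∧
    ∀ (F : Type) [Field F] [Fintype F], EigenvalueSpec F ∧ TateSpec F := by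
  classical
  refine ⟨fun E _ => ⟨?_, ?_⟩, fun F _ _ => ⟨?_, ?_⟩⟩
  · intro f h hh K _ _ _
    exact Pool.Agent.Y951.WP.T_aroots f hh
  · intro f n m hn hm hf hd
    refine ⟨?_, ?_, ?_⟩
    · intro h hh hhn
      exact ⟨_, Pool.Agent.L5helper29.AS.geom_linear hf hd (by omega) hh hhn⟩
    · intro hnm h hh
      subst hnm
      exact Pool.Agent.L5helper29.AS.geom_even (by omega) hf hd hh
    · intro hnm s g hg
      subst hnm
      exact Pool.Agent.L5helper29.AS.geom_odd hf hd s hg
  · intro ψ hψ f n hn hf hd
    have hψ' : ψ.IsPrimitive := AddChar.IsPrimitive.of_ne_one hψ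
    have hk : 1 ≤ f.natDegree := by omega
    have hkF : (f.natDegree : F) ≠ 0 := by rw [hf]; exact hd
    obtain ⟨A, hA, hu⟩ := Pool.Agent.L5helper29.AS.frob_exists hψ' hk hkF
    obtain ⟨h1, h2, h3⟩ := Pool.Agent.L5helper29.AS.frob_main hψ' hn hf hd hA
    refine ⟨A, fun B => ⟨fun hB => hu B hB, fun hB => hB ▸ hA⟩, h1, h2, ?_, ?_⟩
    · intro m hm
      subst hm
      rw [Pool.Agent.L5helper29.AS.AG_even hψ' (by omega) hf hd, pow_mul, neg_one_sq, one_pow,
        one_mul] at h3
      exact h3
    · intro m hm
      subst hm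
      have h4 : (2 : F) ≠ 0 := by
        intro h4
        apply hd
        push_cast
        linear_combination ((m : F) + 1) * h4
      rw [Pool.Agent.L5helper29.AS.AG_odd hψ' h4 hf hd, pow_succ, pow_mul, neg_one_sq, one_pow,
        one_mul, neg_one_mul] at h3
      rw [← neg_neg A.prod, h3]
      rfl
  · intro J _ f ψ A h1 ⟨h2, h3⟩ V _ _ Φ hspan
    have hψ' : ∀ j, (ψ j).IsPrimitive := fun j => AddChar.IsPrimitive.of_ne_one (h1 j).2.2.1
    constructor
    · intro m s x hs hx
      exact Algebra.adjoin_mono (gens_le Φ _ A fun j => (h2 j).1)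
        (Pool.Agent.L5helper29.AS.tate_main f ψ A (fun j => (h1 j).1) (fun j => (h1 j).2.1) hψ'
          (fun j => (h1 j).2.2.2) (fun j => (h2 j).1) (fun j => (h2 j).2) h3 Φ hspan m s hs x
          hx.1 hx.2)
    · -- the generators are Tate classes
      have hpow : ∀ j, ∃ N : ℕ, 0 < N ∧ ∀ u ∈ DetMonomials Φ (Fintype.card F) (A j), ∀ t : ℕ,
          u ∈ ⋀[ℂ]^((A j).card) V ∧ ExteriorAlgebra.map (Φ ^ (2 * N * t)) u =
            ((Fintype.card F : ℂ) ^ ((A j).card * N)) ^ t • u := by
        intro j
        obtain ⟨e1, e2, e3, e4⟩ := h1 j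
        have hn : 1 ≤ (f j).natDegree - 1 := by omega
        have hfn : (f j).natDegree = ((f j).natDegree - 1) + 1 := by omega
        have hdn : ((((f j).natDegree - 1) + 1 : ℕ) : F) ≠ 0 := by rw [← hfn]; exact e2
        obtain ⟨N, hN, g1, g2⟩ := Pool.Agent.L5helper29.AS.frob_pow (hψ' j) hn hfn hdn e4
        have hc : (A j).card = (f j).natDegree - 1 :=
          (Pool.Agent.L5helper29.AS.frob_main (hψ' j) hn hfn hdn e4).1
        refine ⟨N, hN, ?_⟩
        intro u hu t
        rcases hu with hu | hu
        · obtain ⟨g3, g4⟩ := Pool.Agent.L5helper29.AS.detC_eig Φ hu (2 * N * t)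
          refine ⟨g3, ?_⟩
          rw [g4, pow_mul, g1, hc]
        · obtain ⟨g3, g4⟩ := Pool.Agent.L5helper29.AS.detC_eig Φ hu (2 * N * t)
          rw [Multiset.card_map] at g3
          refine ⟨g3, ?_⟩
          rw [g4, pow_mul, g2, hc]
      rintro w ((hw | ⟨j, hj, hw⟩) | ⟨i, j, hi, hj, u, hu, v, hv, rfl⟩)
      · exact ⟨1, 1, le_rfl, hw⟩
      · obtain ⟨N, hN, hN'⟩ := hpow j
        obtain ⟨k, hk⟩ := hj
        obtain ⟨g1, g2⟩ := hN' w hw 1
        refine ⟨k, 2 * N * 1, by omega, ?_, ?_⟩
        · rw [show 2 * k = (A j).card by omega]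
          exact g1
        · rw [g2, hk]
          congr 1
          rw [pow_one, ← pow_mul]
          congr 1
          ring
      · obtain ⟨N, hN, hN'⟩ := hpow i
        obtain ⟨M, hM, hM'⟩ := hpow j
        obtain ⟨k, hk⟩ := hi
        obtain ⟨l, hl⟩ := hj
        obtain ⟨g1, g2⟩ := hN' u hu M
        obtain ⟨g3, g4⟩ := hM' v hv N
        refine ⟨k + l + 1, 2 * N * M, by
          have := Nat.mul_pos hN hM
          nlinarith, ?_, ?_⟩
        · rw [show 2 * (k + l + 1) = (A i).card + (A j).card by omega]
          rw [ExteriorAlgebra.exteriorPower, pow_add]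
          exact Submodule.mul_mem_mul g1 g3
        · rw [map_mul, g2, show 2 * N * M = 2 * M * N by ring, g4, smul_mul_smul_comm]
          congr 1
          rw [← pow_mul, ← pow_mul, ← pow_add, ← pow_mul, hk, hl]
          congr 1
          ring

end Pool.Agent.Results.MP_de89cc_ag.ArtinSchreierPowers
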