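import Pool.Agent.L5helper29.SE.Main3
import Pool.Agent.L5helper29.SE.Fermat

/-!
# The (noncommutative) Tate conjecture for all products of powers of superelliptic curves

For a smooth proper scheme `X` over a finite field Tate's conjecture for `X` holds if and only if the
noncommutative Tate conjecture holds for the dg category `perf_dg (X)`. This file determines all Tate
classes on the products `X` of powers of the following curves `y ^ ℓ = f (x)`.

Let `F` be a finite field with `q` elements, of characteristic `p`, `ℓ` a prime number dividing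
`q - 1`, and `f` a squarefree polynomial over `F` of degree `d = n + 1` prime to `ℓ`. The first
cohomology of the smooth projective model of the curve `C_f : y ^ ℓ = f (x)` is the sum of the spaces
`V_χ = H¹_c (𝔸¹, ℒ_χ (f))` of dimension `n`, for the characters `χ` of `F` of order `ℓ`. The
multiset of the eigenvalues of the Frobenius on `V_χ` is characterized by the character sums of `f`
over all finite extensions of `F` (`IsFrob`).

1. The multiset exists and is unique, it has `n` elements, they have absolute value `√q`, and if `f`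
   is a product of linear factors, their product, the eigenvalue of the Frobenius on the line
   `det V_χ`, is `(-1) ^ n χ (b) g (χ) ^ d / g (χ ^ d)`, where `g` are Gauss sums, and `b` is
   the product of the values of `f'` at the roots of `f`, divided by the leading coefficient `a`.

2. Let `r_1, …, r_d` be the roots of `f`. The map `h ↦ (w_i)`, `w_i = a h (r_i) / f' (r_i)`, from
   the monic polynomials of degree `n` to the hyperplane `∑ w_i = 1` is bijective, and the product of
   the values of `f` at the roots of `h` is `b ∏ w_i`. So it identifies `(C_f) ^ n`, modulo the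
   symmetric group and modulo the elements with product `1` of `μ_ℓ ^ n`, with the variety
   `y ^ ℓ = b ∏ w_i`, `∑ w_i = 1`, and this is a quotient of the Fermat variety
   `u_1 ^ ℓ + ⋯ + u_d ^ ℓ = 1`: the line `det V_χ` in the cohomology of `C_f ^ n` is, by algebraic
   correspondences, the line of the character `(χ, …, χ)` of `μ_ℓ ^ d` in the cohomology of degree
   `n` of the Fermat variety. On the square of the Fermat variety, the graph of the `p ^ k`-th power
   map gives an algebraic class which spans the tensor product of the lines of the characters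
   `χ ^ a` and `χ ^ (- a p ^ k)`; if `p ^ k` is `- 1` modulo `ℓ` for some `k`, the Fermat varieties
   are unirational and all their Tate classes are algebraic (Shioda, Katsura).

3. Let `χ` be a character of order `ℓ`, and `(f j, χ ^ c j)`, `j ∈ J`, finitely many pairs, the
   `f j` squarefree, all of the same degree `d ≥ 4` prime to `ℓ`, and `c j` prime to `ℓ`, with
   eigenvalues `A j`, such that for each `j` the automorphisms of `ℂ` over `ℚ (μ_ℓ)` permute the
   elements of `A j` doubly transitively, or transitively if `n` is prime, and some automorphism over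
   `ℚ (μ_ℓ)` fixes all elements of all `A i`, `i ≠ j`, but not all elements of `A j`; moreover the
   quotients of the elements of `A j` are not all roots of unity. (These are conditions on the Galois
   groups of the `L`-polynomials over `ℚ (μ_ℓ)`.) Let `V` be a vector space with an endomorphism `Φ`,
   spanned by eigenvectors with eigenvalues `α`, `q / α` for `α` in the sets `A j`; for example the
   first cohomology of a product of powers of the Jacobians of the curves. (For one curve `C_f` take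
   `c j = j`, `1 ≤ j ≤ (ℓ - 1) / 2`. The cohomology of the `r`-th power of the Jacobian of `C_f` is
   the exterior algebra of the first one, and that of `C_f ^ r` is a quotient of it.) A determinant
   monomial of exponent `a ∈ ℤ / ℓ` is a product `v_1 ∧ ⋯ ∧ v_n` of eigenvectors with the eigenvalues
   `A j`, `c j = a`, or with the eigenvalues `q / α`, `α ∈ A j`, `- c j = a`. Then **all Tate
   classes in the exterior algebra of `V`** (over all finite extensions of `F`) **are polynomials in
   the Tate classes of degree two over `F`, the products of two determinant monomials of exponents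
   `a` and `- a p ^ k`, and, if `- 1` is a power of `p` modulo `ℓ`, all products of two determinant
   monomials and, for even `n`, all determinant monomials** (and these are Tate classes, over a
   finite extension). The classes of degree two are algebraic by Tate's theorem; the others by 2,
   since the determinant monomials are obtained from the line `det V_χ` by pull-backs and polynomials
   in the Frobenius endomorphisms of the factors. So the Tate conjecture holds for all products `X`
   of powers of the curves `C_f`, although their Tate classes are in general not generated by the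
   classes of divisors, and the groups `G_n (perf_dg (X))` vanish. (For the proof of 3 all
   multiplicative relations between the Gauss sums of the characters of order `ℓ` of the form
   occurring in 1 are determined, by Stickelberger's theorem and the nonvanishing of the generalized
   Bernoulli numbers.)
-/

set_option autoImplicit false
set_option linter.all false

namespace Pool.Agent.Results.MP_de89cc_ag.SuperellipticPowers

open Polynomial Finset

/-- `A` is the multiset of the eigenvalues of the Frobenius of `F` on `H¹_c (𝔸¹, ℒ_χ (f))`: they are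
not zero, and for every finite extension `E` of `F` the sum of `χ (N (f x))`, `x ∈ E`, is minus the
sum of the `[E : F]`-th powers of the elements of `A`. -/
def IsFrob {F : Type} [Field F] [Fintype F] (χ : MulChar F ℂ) (f : F[X]) (A : Multiset ℂ) : Prop :=
  (0 : ℂ) ∉ A ∧ ∀ (E : Type) [Field E] [Fintype E] [Algebra F E],
    ∑ x : E, χ (Algebra.norm F (aeval x f)) = - (A.map (fun α => α ^ Module.finrank F E)).sum

/-- the polynomial with leading coefficient `a` and roots `r i` -/
noncomputable def poly {E : Type} [Field E] {d : ℕ} (a : E) (r : Fin d → E) : E[X] :=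
  C a * ∏ j, (X - C (r j))

/-- the coordinates `w_i` of `h` -/
noncomputable def weight {E : Type} [Field E] {d : ℕ} (a : E) (r : Fin d → E) (h : E[X])
    (i : Fin d) : E :=
  a * h.eval (r i) / (derivative (poly a r)).eval (r i)

/-- `σ` is the identity on the `ℓ`-th roots of unity -/
def FixMu (ℓ : ℕ) (σ : ℂ ≃+* ℂ) : Prop := ∀ z : ℂ, z ^ ℓ = 1 → σ z = z

/-- The elements of `A` are distinct, not all their quotients are roots of unity, and the
automorphisms of `ℂ` over the field of the `ℓ`-th roots of unity act doubly transitively on them, or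
transitively if their number is a prime number. -/
def LargeGalois (ℓ : ℕ) (A : Multiset ℂ) : Prop :=
  A.Nodup ∧ (∃ x ∈ A, ∃ y ∈ A, ∀ N : ℕ, 0 < N → x ^ N ≠ y ^ N) ∧
  ((∀ x ∈ A, ∀ y ∈ A, ∀ x' ∈ A, ∀ y' ∈ A, x ≠ y → x' ≠ y' →
      ∃ σ : ℂ ≃+* ℂ, FixMu ℓ σ ∧ σ x = x' ∧ σ y = y') ∨
    (A.card.Prime ∧ ∀ x ∈ A, ∀ y ∈ A, ∃ σ : ℂ ≃+* ℂ, FixMu ℓ σ ∧ σ x = y))

/-- large and independent Galois groups -/
def LargeIndependent (ℓ : ℕ) {J : Type} (A : J → Multiset ℂ) : Prop :=
  (∀ j, LargeGalois ℓ (A j)) ∧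
  ∀ j, ∃ σ : ℂ ≃+* ℂ, FixMu ℓ σ ∧ (∀ i, i ≠ j → ∀ x ∈ A i, σ x = x) ∧ ∃ x ∈ A j, σ x ≠ x

/-- the Tate classes of codimension `m` over the extension of degree `s` -/
def IsTate {V : Type*} [AddCommGroup V] [Module ℂ V] (Φ : V →ₗ[ℂ] V) (q m s : ℕ)
    (x : ExteriorAlgebra ℂ V) : Prop :=
  x ∈ ⋀[ℂ]^(2 * m) V ∧ ExteriorAlgebra.map (Φ ^ s) x = ((q : ℂ) ^ m) ^ s • x

/-- the products of eigenvectors of `Φ`, one for each element of the multiset `S` -/
def Monomials {V : Type*} [AddCommGroup V] [Module ℂ V] (Φ : V →ₗ[ℂ] V) (S : Multiset ℂ) :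
    Set (ExteriorAlgebra ℂ V) :=
  {w | ∃ L : List (V × ℂ), ((L.map Prod.snd : List ℂ) : Multiset ℂ) = S ∧
    (∀ e ∈ L, Φ e.1 = e.2 • e.1) ∧ w = (L.map (fun e => ExteriorAlgebra.ι ℂ e.1)).prod}

/-- the determinant monomials of exponent `a`: the eigenvalues are the elements `α` of `A j`,
`c j = a`, or the numbers `q / α`, `- c j = a` -/
def DetMonomials {V : Type*} [AddCommGroup V] [Module ℂ V] (Φ : V →ₗ[ℂ] V) (q : ℕ) {ℓ : ℕ}
    {J : Type} (c : J → ℕ) (A : J → Multiset ℂ) (a : ZMod ℓ) : Set (ExteriorAlgebra ℂ V) :=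
  {w | ∃ j, ((c j : ZMod ℓ) = a ∧ w ∈ Monomials Φ (A j)) ∨
    (-(c j : ZMod ℓ) = a ∧ w ∈ Monomials Φ ((A j).map (fun α => (q : ℂ) / α)))}

/-- the generators: Tate classes of degree two over `F`; products of two determinant monomials of
exponents `a` and `- a p ^ k`; if `- 1` is a power of `p` modulo `ℓ`, all products of two determinant
monomials and, for even `n`, all determinant monomials -/
def Generators {V : Type*} [AddCommGroup V] [Module ℂ V] (Φ : V →ₗ[ℂ] V) (p q ℓ n : ℕ)
    {J : Type} (c : J → ℕ) (A : J → Multiset ℂ) : Set (ExteriorAlgebra ℂ V) :=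
  {y | IsTate Φ q 1 1 y} ∪
  {w | ∃ a b : ZMod ℓ, ((∃ k : ℕ, b = -(a * (p : ZMod ℓ) ^ k)) ∨ ∃ k : ℕ, (p : ZMod ℓ) ^ k = -1) ∧
    ∃ u ∈ DetMonomials Φ q c A a, ∃ v ∈ DetMonomials Φ q c A b, w = u * v} ∪
  {w | (∃ k : ℕ, (p : ZMod ℓ) ^ k = -1) ∧ Even n ∧ ∃ a : ZMod ℓ, w ∈ DetMonomials Φ q c A a}

/-- The space is spanned by eigenvectors with eigenvalues `α`, `q / α`, for `α` in the sets `A j`. -/
def SpannedBy {V : Type} [AddCommGroup V] [Module ℂ V] (Φ : V →ₗ[ℂ] V) (q : ℕ) {J : Type}
    (A : J → Multiset ℂ) : Prop :=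
  Submodule.span ℂ {v : V | ∃ j, ∃ α ∈ A j, Φ v = α • v ∨ Φ v = ((q : ℂ) / α) • v} = ⊤

/-- Assertion 1: the eigenvalues of the Frobenius exist and are unique, their number, their absolute
values and their product. -/
def EigenvalueSpec (F : Type) [Field F] [Fintype F] : Prop :=
  ∀ (χ : MulChar F ℂ) (f : F[X]) (d : ℕ), χ ≠ 1 → χ ^ d ≠ 1 → 1 ≤ d → Squarefree f →
    f.natDegree = d →
    ∃ A : Multiset ℂ, (∀ B, IsFrob χ f B ↔ B = A) ∧ A.card = d - 1 ∧
      (∀ α ∈ A, ‖α‖ = Real.sqrt (Fintype.card F)) ∧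
      (f.Splits → ∀ ψ : AddChar F ℂ, A.prod * gaussSum (χ ^ d) ψ = (-1) ^ (d - 1) *
        χ ((f.roots.map (fun z => (derivative f).eval z)).prod / f.leadingCoeff) *
          gaussSum χ ψ ^ d)

/-- Assertion 2: the monic polynomials of degree `d - 1` and the hyperplane `∑ w_i = 1`. -/
def HyperplaneSpec (E : Type) [Field E] : Prop :=
  ∀ (d : ℕ) (a : E) (r : Fin d → E), 1 ≤ d → a ≠ 0 → Function.Injective r →
    Set.BijOn (weight a r) {h | h.Monic ∧ h.natDegree = d - 1} {w | ∑ i, w i = 1} ∧
    ∀ h : E[X], h.Monic → h.natDegree = d - 1 → ∀ (K : Type) [Field K] [IsAlgClosed K]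
      [Algebra E K], ((h.aroots K).map (fun z => aeval z (poly a r))).prod =
        algebraMap E K ((∏ i, (derivative (poly a r)).eval (r i)) / a * ∏ i, weight a r h i)

/-- Assertion 3: the Tate classes. -/
def TateSpec (F : Type) [Field F] [Fintype F] : Prop :=
  ∀ (ℓ d : ℕ) (χ : MulChar F ℂ), ℓ.Prime → orderOf χ = ℓ → 4 ≤ d → ¬ ℓ ∣ d →
    ∀ (J : Type) [Fintype J] (f : J → F[X]) (c : J → ℕ) (A : J → Multiset ℂ),
    (∀ j, (f j).natDegree = d ∧ Squarefree (f j) ∧ ¬ ℓ ∣ c j ∧ IsFrob (χ ^ c j) (f j) (A j)) →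
    LargeIndependent ℓ A →
    ∀ (V : Type) [AddCommGroup V] [Module ℂ V] (Φ : V →ₗ[ℂ] V),
    SpannedBy Φ (Fintype.card F) A →
    (∀ (m s : ℕ) (x : ExteriorAlgebra ℂ V), 1 ≤ s → IsTate Φ (Fintype.card F) m s x →
      x ∈ Algebra.adjoin ℂ (Generators Φ (ringChar F) (Fintype.card F) ℓ (d - 1) c A)) ∧
    (∀ w ∈ Generators Φ (ringChar F) (Fintype.card F) ℓ (d - 1) c A,
      ∃ m s : ℕ, 1 ≤ s ∧ IsTate Φ (Fintype.card F) m s w)

lemma gens_le {J : Type} [DecidableEq J] {V : Type*} [AddCommGroup V] [Module ℂ V]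
    (Φ : V →ₗ[ℂ] V) (p q ℓ n : ℕ) (c : J → ℕ) (A : J → Multiset ℂ) (hA : ∀ j, (A j).Nodup)
    (hcard : ∀ j, (A j).card = n) (h : ∃ k : ℕ, (p : ZMod ℓ) ^ k = -1) :
    Pool.Agent.L5helper29.AS.gens Φ (q : ℂ) (fun j => (A j).toFinset) ⊆
      Generators Φ p q ℓ n c A := by
  have hval : ∀ j, (A j).toFinset.val = A j := fun j => by
    rw [Multiset.toFinset_val, Multiset.dedup_eq_self.2 (hA j)]
  have hcard' : ∀ j, (A j).toFinset.card = n := fun j => by
    rw [Multiset.toFinset_card_of_nodup (hA j), hcard]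
  have hblk : ∀ j, ∀ w ∈ Pool.Agent.L5helper29.AS.blk Φ (q : ℂ) (fun j => (A j).toFinset) j,
      ∃ a : ZMod ℓ, w ∈ DetMonomials Φ q c A a := by
    rintro j w (hw | hw)
    · rw [hval] at hw
      exact ⟨_, j, Or.inl ⟨rfl, hw⟩⟩
    · rw [hval] at hw
      exact ⟨_, j, Or.inr ⟨rfl, hw⟩⟩
  rintro w ((hw | ⟨j, h1, h2⟩) | ⟨i, j, h1, h2, u, hu, v, hv, h3⟩)
  · left; left
    refine ⟨hw.1, ?_⟩
    have := hw.2
    simpa using this
  · right
    rw [hcard'] at h1
    exact ⟨h, h1, hblk j w h2⟩
  · left; right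
    obtain ⟨a, ha⟩ := hblk i u hu
    obtain ⟨b, hb⟩ := hblk j v hv
    exact ⟨a, b, Or.inr h, u, ha, v, hb, h3⟩

lemma gens2_le {J : Type} [DecidableEq J] {V : Type*} [AddCommGroup V] [Module ℂ V]
    (Φ : V →ₗ[ℂ] V) (p q ℓ n : ℕ) (c : J → ℕ) (A : J → Multiset ℂ) (hA : ∀ j, (A j).Nodup) :
    Pool.Agent.L5helper29.SE.gens2 Φ (q : ℂ) (fun j => (A j).toFinset)
      (Pool.Agent.L5helper29.SE.Al ℓ p c) ⊆ Generators Φ p q ℓ n c A := by
  have hval : ∀ j, (A j).toFinset.val = A j := fun j => by
    rw [Multiset.toFinset_val, Multiset.dedup_eq_self.2 (hA j)]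
  have hblk : ∀ j ε, ∀ w ∈ Pool.Agent.L5helper29.AS.detC Φ
      (Pool.Agent.L5helper29.SE.Sgn (q : ℂ) (fun j => (A j).toFinset) j ε),
      w ∈ DetMonomials Φ q c A (((Pool.Agent.L5helper29.SE.sg ε : ℤ) : ZMod ℓ) * (c j : ZMod ℓ)) := by
    intro j ε w hw
    cases ε
    · simp only [Pool.Agent.L5helper29.SE.Sgn, Bool.false_eq_true, if_false, hval] at hw
      refine ⟨j, Or.inr ⟨?_, hw⟩⟩
      simp [Pool.Agent.L5helper29.SE.sg]
    · simp only [Pool.Agent.L5helper29.SE.Sgn, if_true, hval] at hw
      refine ⟨j, Or.inl ⟨?_, hw⟩⟩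
      simp [Pool.Agent.L5helper29.SE.sg]
  rintro w (hw | ⟨i, ε, j, ε', ⟨k, hk⟩, u, hu, v, hv, h3⟩)
  · left; left
    refine ⟨hw.1, ?_⟩
    have := hw.2
    simpa using this
  · left; right
    exact ⟨_, _, Or.inl ⟨k, hk⟩, u, hblk i ε u hu, v, hblk j ε' v hv, h3⟩

theorem result :
    (∀ (E : Type) [Field E], HyperplaneSpec E) ∧
    ∀ (F : Type) [Field F] [Fintype F], EigenvalueSpec F ∧ TateSpec F := by
  classical
  refine ⟨fun E _ => ?_, fun F _ _ => ⟨?_, ?_⟩⟩
  · intro d a r hd ha hr
    refine ⟨Pool.Agent.L5helper29.SE.wt_bij hd ha hr, ?_⟩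
    intro h hh hn K _ _ _
    exact Pool.Agent.L5helper29.SE.wt_prod hd ha hr hh hn K
  · intro χ f d hχ hχd hd hsq hf
    obtain ⟨A, hA⟩ := Pool.Agent.L5helper29.SE.frobM_exists hχ hsq (by omega)
    obtain ⟨h1, h2⟩ := Pool.Agent.L5helper29.SE.frobM_main hd hχ hχd hsq hf hA
    refine ⟨A, fun B => ⟨fun hB => Pool.Agent.L5helper29.SE.frobM_unique hB hA,
      fun hB => hB ▸ hA⟩, h1, h2, ?_⟩
    intro hs ψ
    exact (Pool.Agent.L5helper29.SE.frobM_split2 hd hχ hχd hsq hs hf hA).2.2 ψ
  · intro ℓ d χ hℓ hχo hd hdℓ J _ f c A h1 ⟨h2, h3⟩ V _ _ Φ hspan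
    haveI : Fact ℓ.Prime := ⟨hℓ⟩
    haveI : Fact (ringChar F).Prime := ⟨CharP.char_is_prime F (ringChar F)⟩
    have hχ : χ ^ ℓ = 1 := by
      rw [← hχo]
      exact pow_orderOf_eq_one χ
    have hχ1 : χ ≠ 1 := by
      rintro rfl
      rw [orderOf_one] at hχo
      exact hℓ.one_lt.ne hχo
    have hc : ∀ j, ¬ ℓ ∣ c j := fun j => (h1 j).2.2.1
    have hsq : ∀ j, Squarefree (f j) := fun j => (h1 j).2.1
    have hdeg : ∀ j, (f j).natDegree = d := fun j => (h1 j).1
    have hA : ∀ j, Pool.Agent.L5helper29.SE.IsFrobM (χ ^ c j) (f j) (A j) := fun j => (h1 j).2.2.2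
    have hnd : ∀ j, (A j).Nodup := fun j => (h2 j).1
    have hmain := Pool.Agent.L5helper29.SE.main_data hχ hχ1 hc hd hdℓ hsq hdeg hA
    constructor
    · intro m s x hs hx
      rcases Pool.Agent.L5helper29.SE.tate_mainM (p := ringChar F) hχ hχ1 hc hd hdℓ hsq hdeg hA hnd
        (fun j => (h2 j).2.2) (fun j => (h2 j).2.1) h3 Φ hspan m s hs x hx.1 hx.2 with
        ⟨h4, h5⟩ | h5
      · exact Algebra.adjoin_mono (gens_le Φ (ringChar F) (Fintype.card F) ℓ (d - 1) c A hnd
          (fun j => (hmain j).1) h4) h5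
      · exact Algebra.adjoin_mono (gens2_le Φ (ringChar F) (Fintype.card F) ℓ (d - 1) c A hnd) h5
    · -- the generators are Tate classes
      obtain ⟨M, hM, g1, g2⟩ := Pool.Agent.L5helper29.SE.pow_blocks (p := ringChar F) hχ hχ1 hc hd
        hdℓ hsq hdeg hA
      -- determinant monomials as eigenvectors
      have key : ∀ (a : ZMod ℓ), ∀ u ∈ DetMonomials Φ (Fintype.card F) c A a,
          ∃ j ε, ((Pool.Agent.L5helper29.SE.sg ε : ℤ) : ZMod ℓ) * (c j : ZMod ℓ) = a ∧
            u ∈ ⋀[ℂ]^(d - 1) V ∧ ∀ s : ℕ, ExteriorAlgebra.map (Φ ^ s) u =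
              (Pool.Agent.L5helper29.SE.PS F A d j ε) ^ s • u := by
        rintro a u ⟨j, ⟨h4, h5⟩ | ⟨h4, h5⟩⟩
        · refine ⟨j, true, by simp [Pool.Agent.L5helper29.SE.sg, h4], ?_, ?_⟩
          · have := (Pool.Agent.L5helper29.AS.detC_eig Φ h5 1).1
            rwa [(hmain j).1] at this
          · intro s
            exact (Pool.Agent.L5helper29.AS.detC_eig Φ h5 s).2
        · refine ⟨j, false, by simp [Pool.Agent.L5helper29.SE.sg, h4], ?_, ?_⟩
          · have := (Pool.Agent.L5helper29.AS.detC_eig Φ h5 1).1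
            rwa [Multiset.card_map, (hmain j).1] at this
          · intro s
            have := (Pool.Agent.L5helper29.AS.detC_eig Φ h5 s).2
            rw [Pool.Agent.L5helper29.SE.prod_div, (hmain j).1] at this
            exact this
      rintro w ((hw | ⟨a, b, hab, u, hu, v, hv, rfl⟩) | ⟨⟨k, hk⟩, ⟨l, hl⟩, a, hw⟩)
      · exact ⟨1, 1, le_rfl, hw⟩
      · obtain ⟨i, ε, e1, e2, e3⟩ := key a u hu
        obtain ⟨j, ε', e4, e5, e6⟩ := key b v hv
        have hmem : u * v ∈ ⋀[ℂ]^(2 * (d - 1)) V := by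
          rw [ExteriorAlgebra.exteriorPower, two_mul, pow_add]
          exact Submodule.mul_mem_mul e2 e5
        rcases hab with ⟨k, hk⟩ | h
        · refine ⟨d - 1, M, hM, hmem, ?_⟩
          have h4 := g1 i ε j ε' ⟨k, by rw [e1, e4]; exact hk⟩
          rw [map_mul, e3, e6, smul_mul_smul_comm, ← mul_pow, h4, ← pow_mul]
        · refine ⟨d - 1, 2 * M, by omega, hmem, ?_⟩
          rw [map_mul, e3, e6, smul_mul_smul_comm, g2 h i ε, g2 h j ε', ← pow_mul, ← pow_add]
          congr 2
          ring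
      · obtain ⟨j, ε, e1, e2, e3⟩ := key a w hw
        refine ⟨l, 2 * M, by omega, ?_, ?_⟩
        · rw [two_mul, ← hl]
          exact e2
        · rw [e3, g2 ⟨k, hk⟩ j ε, ← pow_mul, hl]
          congr 2
          ring

end Pool.Agent.Results.MP_de89cc_ag.SuperellipticPowers
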