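import Pool.Agent.L5helper29.NC.Fin
import Pool.Agent.L5helper29.ID.Stm

/-!
# The noncommutative Tate conjecture for the tensor products of an arbitrary dg category with
# noncommutative motives from an independent family of unitary type

Let `M` be a field of complex numbers and `A j`, `j ∈ J`, a family, finite or infinite, of finite
sets of complex numbers (`Block`, `Large`, `Independent`): the automorphisms of `ℂ` over `M` map
`A j` to itself and act on it doubly transitively (or transitively, if the number of its elements
is a prime number), the elements have the same absolute value, a power of their product is a power
of `p`, the quotients are not all roots of unity, and the field generated by `A j` over `M` is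
not contained in the field generated by the `A i`, `i ∈ F`, for any finite set `F` without `j`.

Examples are the eigenvalues of the Frobenius on the parts `V_ψ` of the first cohomology of the
curves `y ^ p - y = f (x)` over finite fields, with `M = ℚ (μ_p)`, and on the parts `V_χ` of the
first cohomology of the curves `y ^ ℓ = f (x)` if `- 1` is a power of `p` modulo `ℓ`, with
`M = ℚ (μ_ℓ)` (see `MP_0d42ed_ag.TimesArbitraryVarieties`); `Large` and `Independent` are
conditions on the Galois groups of the `L`-polynomials.

A direct summand of the noncommutative motive with rational coefficients of a variety `X` is a pair
`(X, f)` with an idempotent `f` in the ring of self-correspondences of `X` of **arbitrary degree**,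
`K_0(X × X)_ℚ` (`IsMotive`; only the operator on the cohomology is used, so `f` need only be
idempotent modulo homological equivalence). Every dg category with a semi-orthogonal
decomposition embedding, every twisted form (Azumaya algebras) and every component of the perfect
complexes of `X` gives such a pair. The cohomology of `(X, f)` is the image of `f`, its
`K_0` the sums of classes of cycles of all codimensions fixed by `f`. The Tate conjecture for
`(X, f)` (`NCTateConj`), over all finite fields, says that the Tate classes in the image of `f` are
linear combinations of classes of elements of `K_0`; by the theorem of Thomason for `X`, and since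
the functors involved are defined on noncommutative motives, it is equivalent to the vanishing of
the groups `G_n` in the question for all `n`. The tensor product of `(X, f)` and `(Z, e)` is
`(X × Z, f × e)`.

**Theorem.** Let `Z₀` be an **arbitrary** smooth projective variety over a finite field and `B` the set
of the eigenvalues of its Frobenius (or any finite set stable over `M`), `b` the number of its
elements. There is a set `E` of indices, with `2 ^ #E ≤ b!`, such that for

* all varieties `X` whose Frobenius eigenvalues are, up to powers, products of integral powers of
  `p` and of elements of sets `A j`, `j ∉ E` (for instance products of arbitrary powers of the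
  curves belonging to the indices outside `E`) and for which the strong form of the Tate
  conjecture is true (`SupersingularAlgebraic`), and **all summands `ℬ = (X, f)`** of their
  noncommutative motives,
* all varieties `Z` whose Frobenius eigenvalues are in the group generated by `B` and `p`, up to
  powers (for instance `Z₀` and its powers) and **all dg categories `𝒜 = (Z, e)`** whose
  noncommutative motive is a summand of the one of `Z`:

the Tate classes of `ℬ ⊗ 𝒜` are the sums of the products of classes of elements of `K_0(ℬ)` and
Tate classes of `𝒜`; and **the noncommutative Tate conjecture for `ℬ ⊗ 𝒜` is true if and only if it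
is true for `𝒜`, or `K_0(ℬ)` is homologically trivial** (then there are no Tate classes). Nothing is
assumed on `𝒜`.

The case `ℬ = perf(X)` is the conjecture for `perf(X) ⊗ 𝒜`. In the starting files there are such
theorems for almost all abelian varieties `X`, `ℬ = perf(X)`, with eigenvalues of `Z` of small
rank modulo a fixed number field; here the family is of a different kind (the Galois groups are
unitary, not symplectic, so that there are Tate classes - determinants - which are not products of
divisors), there is no condition on the rank, the exceptional set is bounded explicitly, and `ℬ`
may be any summand.

The proof: in a multiplicative relation between elements of the sets `A j` and of `B` the exponents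
are constant on every `A j` such that some automorphism over `M` fixes `B` and the other sets
`A i`, but not `A j`; the exceptional indices are found with the indices of the stabilizers, and
an ultrafilter for infinite families (`Pool.Agent.L5helper29.ID`). So the Tate classes on `X × Z`
are sums of products; the correspondence `f × e` of arbitrary degree maps products to products.
-/

set_option autoImplicit false
set_option linter.all false

open CategoryTheory AlgebraicGeometry Polynomial

universe u v

namespace Pool.Agent.Results.MP_de89cc_ag.TensorProducts

open Pool.Agent.H914 Pool.Agent.H914.VarClass Pool.Agent.H914.VarClass.Obj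
  Pool.Agent.H914.WeilCohomology Pool.Agent.W534 Pool.Agent.TH121.KT
  Pool.Agent.H281R3.HT Pool.Agent.L5helper29.ID Pool.Agent.L5helper29.NC

/-- **The noncommutative Tate conjecture for the tensor products of arbitrary dg categories with
noncommutative motives from an independent family of unitary type, with finitely many explicit
exceptions.** -/
theorem result {k : Type u} [Field k] {𝒱 : VarClass k} {ops : CycleOps 𝒱}
    (W : WeilCohomology.{u, v} ops) [IsAlgClosed W.K] (σ : W.K →+* ℂ) (p : ℕ) (hp : 1 < p)
    (Φ : FrobSystem W p) (M : Subfield ℂ) {J : Type} (A : J → Finset ℂ)
    (hA : ∀ j, Block p M (A j) ∧ Large M (A j)) (hI : Independent M A)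
    (B : Finset ℂ) (hB : Stable M B) :
    ∃ E : Set J, E.Finite ∧ 2 ^ E.ncard ≤ B.card.factorial ∧
      ∀ (S : Finset J) (X : 𝒱.Obj), Disjoint (S : Set J) E → ProductsOf Φ σ A S X →
        SupersingularAlgebraic Φ X → ∀ Z : 𝒱.Obj, EigenvaluesIn Φ σ B Z →
        ∀ (f : W.H X → W.H X) (e : W.H Z → W.H Z), IsMotive W X f → IsMotive W Z e →
          (∃ h, IsTensor W f e h) ∧ ∀ h, IsTensor W f e h → IsMotive W (X.prod Z) h ∧
            (∀ w, IsTateClass Φ (X.prod Z) h w ↔ w ∈ Submodule.span W.K
              {w | ∃ a t, IsKZeroClass W X f a ∧ IsTateClass Φ Z e t ∧ w = ext W a t}) ∧
            (NCTateConj Φ (X.prod Z) h ↔ (∀ a, IsKZeroClass W X f a → a = 0) ∨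
              NCTateConj Φ Z e) := by
  obtain ⟨E, hE, hE2, hE3⟩ := exists_exc hI hB
  refine ⟨E, hE, hE2, fun S X hS hX hTX Z hZ f e hf he => ?_⟩
  exact final_nc' hp σ (fun j => blockG (hA j).1 (hA j).2) (fun τ hτ b hb => hB τ hτ b hb)
    E hE3 S hS hX hTX hZ hf he

end Pool.Agent.Results.MP_de89cc_ag.TensorProducts
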